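import Mathlib

namespace Pool.Agent.Results.MP_357d86_pr.Blocks

open MeasureTheory Set Filter Topology
open scoped ENNReal

/-- Generalized inverse `F⁻¹(u) = inf {y : F y ≥ u}`. -/
noncomputable def ginv (F : ℝ → ℝ) (u : ℝ) : ℝ := sInf {y | u ≤ F y}

/-- Bivariate Lorenz curve of the law `μ`. -/
noncomputable def Lor (μ : Measure (ℝ × ℝ)) (x₁ x₂ : ℝ) : ℝ :=
  (∫ p in {p : ℝ × ℝ | p.1 ≤ ginv (fun y => μ.real {p | p.1 ≤ y}) x₁ ∧
    p.2 ≤ ginv (fun y => μ.real {p | p.2 ≤ y}) x₂}, p.1 * p.2 ∂μ) / ∫ p, p.1 * p.2 ∂μ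

/-- `ν` is a probability law on `[0,1]²` with distribution function `Lor μ`. -/
def IsNext (μ ν : Measure (ℝ × ℝ)) : Prop :=
  IsProbabilityMeasure ν ∧ (∀ᵐ p ∂ν, p ∈ Icc (0 : ℝ) 1 ×ˢ Icc (0 : ℝ) 1) ∧
    ∀ x₁ ∈ Icc (0 : ℝ) 1, ∀ x₂ ∈ Icc (0 : ℝ) 1, ν.real (Iic x₁ ×ˢ Iic x₂) = Lor μ x₁ x₂

def Bl (p : ℝ × ℝ) : Prop := (0 < p.1 ∧ p.1 ≤ 1 / 2 ∧ 1 / 2 < p.2 ∧ p.2 ≤ 1) ∨
  (0 < p.2 ∧ p.2 ≤ 1 / 2 ∧ 1 / 2 < p.1 ∧ p.1 ≤ 1)

lemma Bl.box {p : ℝ × ℝ} (h : Bl p) : (0 < p.1 ∧ p.1 ≤ 1) ∧ 0 < p.2 ∧ p.2 ≤ 1 := by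
  rcases h with h | h <;> refine ⟨⟨?_, ?_⟩, ?_, ?_⟩ <;> linarith [h.1, h.2.1, h.2.2.1, h.2.2.2]

structure Inv (μ : Measure (ℝ × ℝ)) : Prop where
  prob : IsProbabilityMeasure μ
  sym : MeasurePreserving Prod.swap μ μ
  bl : ∀ᵐ p ∂μ, Bl p
  atom : ∀ t, μ {p | p.1 = t} = 0

lemma ms1 (y : ℝ) : MeasurableSet {p : ℝ × ℝ | p.1 ≤ y} := measurableSet_le measurable_fst measurable_const

lemma Inv.ae2 {μ} (h : Inv μ) {P : ℝ → Prop} (hP : ∀ᵐ p ∂μ, P p.1) : ∀ᵐ p ∂μ, P p.2 :=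
  h.sym.quasiMeasurePreserving.ae hP

lemma Inv.F2 {μ} (h : Inv μ) (y : ℝ) : μ.real {p | p.2 ≤ y} = μ.real {p | p.1 ≤ y} :=
  congrArg ENNReal.toReal (h.sym.measure_preimage (ms1 y).nullMeasurableSet)

lemma Inv.half {μ} (h : Inv μ) : μ.real {p | p.1 ≤ 1 / 2} = 1 / 2 := by
  haveI := h.prob
  have h1 := probReal_compl_eq_one_sub (μ := μ) (ms1 (1 / 2))
  have h2 : μ.real {p | p.2 ≤ 1 / 2} = μ.real {p : ℝ × ℝ | p.1 ≤ 1 / 2}ᶜ := by
    refine measureReal_congr (h.bl.mono fun p hp => propext ?_)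
    show p.2 ≤ 1 / 2 ↔ ¬ p.1 ≤ 1 / 2
    rcases hp with hp | hp <;> constructor <;> intro <;> linarith [hp.2.1, hp.2.2.1]
  linarith [h.F2 (1 / 2)]

lemma Inv.mono {μ} (h : Inv μ) : Monotone fun y => μ.real {p | p.1 ≤ y} := fun a b hab =>
  haveI := h.prob
  measureReal_mono fun _ hp => le_trans hp hab

lemma Inv.level {μ} (h : Inv μ) (t : ℝ) : ∀ᵐ p ∂μ, μ.real {q | q.1 ≤ p.1} ≠ t := by
  haveI := h.prob
  set F := fun y => μ.real {q : ℝ × ℝ | q.1 ≤ y} with hF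
  have h1 : ∀ s : Set ℝ, s.Subsingleton → ∀ᵐ p ∂μ, p.1 ∉ s := by
    intro s hs
    rcases hs.eq_empty_or_singleton with rfl | ⟨a, rfl⟩
    · simp
    · exact measure_eq_zero_iff_ae_notMem.1 (h.atom a)
  have h2 : ∀ a b : ℚ, ∀ᵐ p ∂μ, F a = F b → ¬ ((a : ℝ) < p.1 ∧ p.1 ≤ (b : ℝ)) := by
    intro a b
    by_cases e : F a = F b
    swap
    · exact Eventually.of_forall fun _ h => absurd h e
    rcases le_total (b : ℝ) a with hab | hab
    · exact Eventually.of_forall fun _ _ h => by linarith [h.1, h.2]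
    have : μ.real ({q : ℝ × ℝ | q.1 ≤ b} \ {q | q.1 ≤ a}) = 0 := by
      rw [measureReal_diff (s₁ := {q : ℝ × ℝ | q.1 ≤ b}) (s₂ := {q : ℝ × ℝ | q.1 ≤ a}) (fun _ hp => le_trans hp hab) (ms1 a)]
      exact sub_eq_zero.2 e.symm
    filter_upwards [measure_eq_zero_iff_ae_notMem.1 ((measureReal_eq_zero_iff).1 this)] with p hp _ h
    exact hp ⟨h.2, not_le.2 h.1⟩
  filter_upwards [h1 {u | IsLeast {u | F u = t} u} fun _ a _ b => a.unique b,
    h1 {u | IsGreatest {u | F u = t} u} fun _ a _ b => a.unique b,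
    ae_all_iff.2 fun a => ae_all_iff.2 (h2 a)] with p p1 p2 p3 ht
  obtain ⟨a, ha, ha'⟩ : ∃ a, F a = t ∧ a < p.1 := by
    by_contra hc; push Not at hc; exact p1 ⟨ht, hc⟩
  obtain ⟨b, hb, hb'⟩ : ∃ b, F b = t ∧ p.1 < b := by
    by_contra hc; push Not at hc; exact p2 ⟨ht, hc⟩
  obtain ⟨c, c1, c2⟩ := exists_rat_btwn ha'
  obtain ⟨d, d1, d2⟩ := exists_rat_btwn hb'
  refine p3 c d (le_antisymm (h.mono (c2.trans d1).le) ?_) ⟨c2, d1.le⟩
  exact (h.mono d2.le).trans ((hb.trans ha.symm).le.trans (h.mono c1.le))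

lemma Inv.quant {μ} (h : Inv μ) {x : ℝ} (hx : x ∈ Icc (0 : ℝ) 1) : ∀ᵐ p ∂μ,
    μ.real {q | q.1 ≤ p.1} ≤ x ↔ p.1 ≤ ginv (fun y => μ.real {p | p.1 ≤ y}) x := by
  haveI := h.prob
  set F := fun y => μ.real {q : ℝ × ℝ | q.1 ≤ y} with hF
  have F1 : F 1 = 1 := by
    refine Eq.trans ?_ (probReal_univ (μ := μ))
    exact measureReal_congr (h.bl.mono fun p hp => propext ⟨fun _ => trivial, fun _ => hp.box.1.2⟩)
  have F0 : F 0 = 0 := (measureReal_eq_zero_iff).2 (measure_eq_zero_iff_ae_notMem.2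
    (h.bl.mono fun p hp => not_le.2 hp.box.1.1))
  filter_upwards [h.level x, measure_eq_zero_iff_ae_notMem.1 (h.atom (ginv F x)), h.bl]
    with p p1 p2 p3
  constructor
  · intro h1
    refine le_csInf ⟨1, hx.2.trans F1.ge⟩ fun y hy => le_of_not_gt fun hlt => ?_
    exact p1 (le_antisymm h1 (le_trans hy (h.mono hlt.le)))
  · intro h1
    by_contra h2
    rcases hx.1.eq_or_lt with rfl | h0
    · have : ginv F 0 = 0 := by
        rw [ginv, eq_univ_of_forall (s := {y | 0 ≤ F y}) fun _ => measureReal_nonneg, Real.sInf_univ]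
      linarith [p3.box.1.1]
    · refine p2 (le_antisymm h1 (csInf_le ⟨0, fun y hy => le_of_not_gt fun hlt => ?_⟩
        (not_le.1 h2).le))
      linarith [h.mono hlt.le, show x ≤ F y from hy]

lemma Inv.int {μ} (h : Inv μ) : Integrable (fun p : ℝ × ℝ => p.1 * p.2) μ ∧
    0 < ∫ p, p.1 * p.2 ∂μ := by
  haveI := h.prob
  have h1 : Integrable (fun p : ℝ × ℝ => p.1 * p.2) μ :=
    Integrable.of_bound (by fun_prop) 1 (h.bl.mono fun p hp => by
      obtain ⟨⟨a, b⟩, c, d⟩ := hp.box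
      rw [Real.norm_of_nonneg (by positivity)]; nlinarith)
  refine ⟨h1, (integral_pos_iff_support_of_nonneg_ae (h.bl.mono fun p hp =>
    (mul_pos hp.box.1.1 hp.box.2.1).le) h1).2 ?_⟩
  rw [measure_congr (s := Function.support fun p : ℝ × ℝ => p.1 * p.2) (t := univ) (h.bl.mono fun p hp => propext ⟨fun _ => trivial, fun _ =>
    (mul_pos hp.box.1.1 hp.box.2.1).ne'⟩)]
  simp

lemma Inv.next {μ} (h : Inv μ) : ∃ ν, Inv ν ∧ IsNext μ ν := by
  haveI := h.prob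
  set F := fun y => μ.real {q : ℝ × ℝ | q.1 ≤ y} with hF
  have hFm : Measurable F := h.mono.measurable
  obtain ⟨i1, i2⟩ := h.int
  set E := ∫ p, p.1 * p.2 ∂μ
  let g : ℝ × ℝ → ℝ≥0∞ := fun p => ENNReal.ofReal (p.1 * p.2 / E)
  have hg : Measurable g := by fun_prop
  let W := μ.withDensity g
  have hW : ∀ s, MeasurableSet s → W s = ENNReal.ofReal ((∫ p in s, p.1 * p.2 ∂μ) / E) := by
    intro s hs
    rw [withDensity_apply _ hs, ← integral_div, ofReal_integral_eq_lintegral_ofReal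
      (i1.div_const E).integrableOn (ae_restrict_of_ae (h.bl.mono fun p hp =>
        (div_pos (mul_pos hp.box.1.1 hp.box.2.1) i2).le))]
  haveI : IsProbabilityMeasure W := ⟨by
    rw [hW _ MeasurableSet.univ, Measure.restrict_univ, div_self i2.ne', ENNReal.ofReal_one]⟩
  have ac : W ≪ μ := withDensity_absolutelyContinuous _ _
  have Ws : MeasurePreserving Prod.swap W W := ⟨measurable_swap, Measure.ext fun s hs => by
    rw [Measure.map_apply measurable_swap hs, withDensity_apply _ hs,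
      withDensity_apply _ (measurable_swap hs), ← h.sym.setLIntegral_comp_preimage hs hg]
    simp only [g, Prod.fst_swap, Prod.snd_swap, mul_comm]⟩
  let G : ℝ × ℝ → ℝ × ℝ := fun p => (F p.1, F p.2)
  have hG : Measurable G := by fun_prop
  have mB : MeasurableSet {p | Bl p} := by unfold Bl; measurability
  have hbl : ∀ᵐ p ∂W.map G, Bl p := by
    refine (ae_map_iff hG.aemeasurable mB).2 (ac.ae_le ?_)
    have k : ∀ u v, F u ≠ 0 → F v ≠ 1 / 2 → u ≤ 1 / 2 → 1 / 2 < v →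
        0 < F u ∧ F u ≤ 1 / 2 ∧ 1 / 2 < F v ∧ F v ≤ 1 := fun u v a b c d =>
      ⟨lt_of_le_of_ne measureReal_nonneg a.symm, (h.mono c).trans h.half.le,
        lt_of_le_of_ne (h.half.ge.trans (h.mono d.le)) b.symm, measureReal_le_one⟩
    filter_upwards [h.bl, h.level 0, h.level (1 / 2), h.ae2 (P := fun u => F u ≠ 0) (h.level 0),
      h.ae2 (P := fun u => F u ≠ 1 / 2) (h.level (1 / 2))] with p p1 p2 p3 p4 p5
    rcases p1 with p1 | p1
    · exact Or.inl (k _ _ p2 p5 p1.2.1 p1.2.2.1)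
    · exact Or.inr (k _ _ p4 p3 p1.2.1 p1.2.2.1)
  haveI : IsProbabilityMeasure (W.map G) := Measure.isProbabilityMeasure_map hG.aemeasurable
  refine ⟨W.map G, ⟨inferInstance, ⟨measurable_swap, ?_⟩, hbl, fun t => ?_⟩, inferInstance,
    hbl.mono fun p hp => ⟨⟨hp.box.1.1.le, hp.box.1.2⟩, hp.box.2.1.le, hp.box.2.2⟩,
    fun x hx y hy => ?_⟩
  · nth_rewrite 2 [← Ws.map_eq]
    rw [Measure.map_map measurable_swap hG, Measure.map_map hG measurable_swap]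
    rfl
  · rw [Measure.map_apply hG (measurableSet_eq_fun measurable_fst measurable_const)]
    exact ac (measure_eq_zero_iff_ae_notMem.2 (h.level t))
  · rw [Measure.real, Measure.map_apply hG (measurableSet_Iic.prod measurableSet_Iic), Lor,
      funext h.F2, measure_congr (t := {p : ℝ × ℝ | p.1 ≤ ginv F x ∧ p.2 ≤ ginv F y}), hW,
      ENNReal.toReal_ofReal]
    · exact div_nonneg (setIntegral_nonneg_of_ae (h.bl.mono fun p hp =>
        (mul_pos hp.box.1.1 hp.box.2.1).le)) i2.le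
    · measurability
    · refine ac.ae_le ?_
      filter_upwards [h.quant hx, h.ae2 (P := fun u => F u ≤ y ↔ u ≤ ginv F y) (h.quant hy)]
        with p p1 p2
      exact propext (and_congr p1 p2)

lemma init : Inv ((2 : ℝ≥0∞) • volume.restrict {p | Bl p}) := by
  have mB : MeasurableSet {p | Bl p} := by unfold Bl; measurability
  refine ⟨⟨?_⟩, ?_, Measure.ae_smul_measure (ae_restrict_mem mB) _, fun t => ?_⟩
  · have e : {p | Bl p} = Ioc (0 : ℝ) (1 / 2) ×ˢ Ioc (1 / 2 : ℝ) 1 ∪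
        Ioc (1 / 2 : ℝ) 1 ×ˢ Ioc (0 : ℝ) (1 / 2) := by
      ext p; simp only [Bl, mem_setOf_eq, mem_union, mem_prod, mem_Ioc]; tauto
    rw [Measure.smul_apply, Measure.restrict_apply_univ, e, measure_union
      (disjoint_left.2 fun p a b => by linarith [a.1.2, b.1.1]) (by measurability),
      Measure.volume_eq_prod, Measure.prod_prod, Measure.prod_prod]
    simp only [Real.volume_Ioc, smul_eq_mul]
    rw [← ENNReal.ofReal_mul (by norm_num), ← ENNReal.ofReal_mul (by norm_num),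
      ← ENNReal.ofReal_add (by norm_num) (by norm_num), ← ENNReal.ofReal_ofNat,
      ← ENNReal.ofReal_mul (by norm_num)]
    norm_num
  · have := (Measure.measurePreserving_swap (μ := (volume : Measure ℝ))
      (ν := (volume : Measure ℝ))).restrict_preimage mB
    rw [show Prod.swap ⁻¹' {p | Bl p} = {p | Bl p} from Set.ext fun p => or_comm] at this
    exact this.smul_measure _
  · refine Measure.smul_absolutelyContinuous (Measure.absolutelyContinuous_of_le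
      Measure.restrict_le_self ?_)
    rw [show {p : ℝ × ℝ | p.1 = t} = {t} ×ˢ univ by ext; simp, Measure.volume_eq_prod,
      Measure.prod_prod]
    simp

lemma uniq {μ ν ν' : Measure (ℝ × ℝ)} (h : IsNext μ ν) (h' : IsNext μ ν') : ν = ν' := by
  haveI := h.1
  haveI := h'.1
  have sp : IsCountablySpanning (range (Iic : ℝ → Set ℝ)) :=
    ⟨fun n : ℕ => Iic (n : ℝ), fun n => ⟨_, rfl⟩, eq_univ_of_forall fun x => by
      simpa using exists_nat_ge x⟩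
  have hb : MeasurableSpace.generateFrom (range (Iic : ℝ → Set ℝ)) = Real.measurableSpace :=
    (borel_eq_generateFrom_Iic ℝ).symm
  refine ext_of_generate_finite _ (generateFrom_eq_prod hb hb sp sp).symm
    (isPiSystem_Iic.prod isPiSystem_Iic) ?_ (by simp)
  rintro _ ⟨_, ⟨x, rfl⟩, _, ⟨y, rfl⟩, rfl⟩
  by_cases hxy : 0 ≤ x ∧ 0 ≤ y
  · have k : ∀ ν, IsNext μ ν → ν.real (Iic x ×ˢ Iic y) = Lor μ (min x 1) (min y 1) := by
      intro ν h
      rw [← h.2.2 _ ⟨le_min hxy.1 zero_le_one, min_le_right _ _⟩ _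
        ⟨le_min hxy.2 zero_le_one, min_le_right _ _⟩]
      exact measureReal_congr (h.2.1.mono fun p hp => propext ⟨fun a =>
        ⟨le_min a.1 hp.1.2, le_min a.2 hp.2.2⟩, fun a =>
        ⟨le_trans a.1 (min_le_left x 1), le_trans a.2 (min_le_left y 1)⟩⟩)
    exact (measureReal_eq_measureReal_iff).1 ((k ν h).trans (k ν' h').symm)
  · have k : ∀ ν, IsNext μ ν → ν (Iic x ×ˢ Iic y) = 0 := fun ν h =>
      measure_eq_zero_iff_ae_notMem.2 (h.2.1.mono fun p hp a =>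
        hxy ⟨hp.1.1.trans a.1, hp.2.1.trans a.2⟩)
    exact (k ν h).trans (k ν' h').symm

theorem result : (∀ μ ν ν', IsNext μ ν → IsNext μ ν' → ν = ν') ∧ ∃ μ : ℕ → Measure (ℝ × ℝ), IsProbabilityMeasure (μ 0) ∧ μ 0 ≪ volume ∧
    (∀ᵐ p ∂μ 0, p ∈ Ioc (0 : ℝ) 1 ×ˢ Ioc (0 : ℝ) 1) ∧ (∀ n, IsNext (μ n) (μ (n + 1))) ∧
    (∀ n, Lor (μ n) (1 / 2) 1 = 1 / 2 ∧ Lor (μ n) 1 (1 / 2) = 1 / 2 ∧
      Lor (μ n) (1 / 2) (1 / 2) = 0) ∧
    ¬ TendstoUniformlyOn (fun n x => Lor (μ n) x 1) (fun x => x ^ ((1 + √5) / 2)) atTop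
      (Icc 0 1) ∧
    ¬ TendstoUniformlyOn (fun n (x : ℝ × ℝ) => Lor (μ n) x.1 x.2 -
      Lor (μ n) x.1 1 * Lor (μ n) 1 x.2) 0 atTop (Icc 0 1 ×ˢ Icc 0 1) := by
  refine ⟨fun _ _ _ => uniq, ?_⟩
  choose nx h1 h2 using fun μ : {μ // Inv μ} => μ.2.next
  let s : ℕ → {μ // Inv μ} := fun n => Nat.rec ⟨_, init⟩ (fun _ μ => ⟨nx μ, h1 μ⟩) n
  have hh : (1 / 2 : ℝ) ∈ Icc (0 : ℝ) 1 := by constructor <;> norm_num
  have h1' : (1 : ℝ) ∈ Icc (0 : ℝ) 1 := by constructor <;> norm_num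
  have key : ∀ n, Lor (s n).1 (1 / 2) 1 = 1 / 2 ∧ Lor (s n).1 1 (1 / 2) = 1 / 2 ∧
      Lor (s n).1 (1 / 2) (1 / 2) = 0 := by
    intro n
    have a := h1 (s n)
    rw [← (h2 (s n)).2.2 _ hh _ h1', ← (h2 (s n)).2.2 _ h1' _ hh, ← (h2 (s n)).2.2 _ hh _ hh]
    refine ⟨Eq.trans (measureReal_congr ?_) a.half,
      Eq.trans (measureReal_congr ?_) ((a.F2 _).trans a.half), ?_⟩
    · exact a.bl.mono fun p hp => propext ⟨fun h => h.1, fun h => ⟨h, hp.box.2.2⟩⟩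
    · exact a.bl.mono fun p hp => propext ⟨fun h => h.2, fun h => ⟨hp.box.1.2, h⟩⟩
    · rw [Measure.real, measure_eq_zero_iff_ae_notMem.2, ENNReal.toReal_zero]
      refine a.bl.mono fun p hp h => ?_
      rcases hp with hp | hp <;> linarith [hp.2.2.1, mem_Iic.1 h.1, mem_Iic.1 h.2]
  refine ⟨fun n => (s n).1, init.prob, Measure.smul_absolutelyContinuous.trans
    (Measure.absolutelyContinuous_of_le Measure.restrict_le_self), init.bl.mono fun p hp => hp.box,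
    fun n => h2 (s n), key, fun h => ?_, fun h => ?_⟩
  · have := h.tendsto_at hh
    simp only [(key _).1, tendsto_const_nhds_iff] at this
    have h5 : (1 : ℝ) < √5 := Real.lt_sqrt_of_sq_lt (by norm_num)
    have := Real.rpow_lt_rpow_of_exponent_gt (x := 1 / 2) (by norm_num) (by norm_num)
      (show (1 : ℝ) < (1 + √5) / 2 by linarith)
    rw [Real.rpow_one] at this
    linarith
  · have := h.tendsto_at (x := (1 / 2, 1 / 2)) ⟨hh, hh⟩
    simp only [(key _).1, (key _).2.1, (key _).2.2, tendsto_const_nhds_iff] at this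
    norm_num at this

end Pool.Agent.Results.MP_357d86_pr.Blocks
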